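import Pool.Agent.Helper47.RFn.GoalsA

/-! # Project RFn, packet EVK -/

namespace Pool.Agent.Helper47.RFn

open Finset

namespace EVKaux

/-- the linear expression of which `Sb` is the value -/
noncomputable def Phi {n : ℕ} (a b : ℝ) (ν : Ix n → ℝ) (T : T4 (n + 1)) (β : ℝ) : T4 (n + 1) :=
  T + (β - 2 * a / (1 + 2 * ((n : ℝ) - 1) * a) * ((∑ a, Ric T a a) / n + ((n : ℝ) - 1) * β)) •
      wdg (Pm ν) (Pm ν)
    + (-(2 * b / (1 + ((n : ℝ) - 2) * b))) • wdg (Ric T - ((∑ a, Ric T a a) / n) • Pm ν) (Pm ν)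

theorem Pm_symm {n : ℕ} (ν : Ix n → ℝ) : (Pm ν).IsSymm := by
  refine Matrix.IsSymm.ext fun i j => ?_
  unfold Pm
  by_cases h : i = j
  · subst h; rfl
  · rw [if_neg h, if_neg (Ne.symm h)]; ring

theorem Pm_nu {n : ℕ} {ν : Ix n → ℝ} (hn : ∑ i, ν i ^ 2 = 1) (i : Ix n) :
    ∑ j, Pm ν i j * ν j = 0 := by
  unfold Pm
  simp only [sub_mul, ite_mul, one_mul, zero_mul, Finset.sum_sub_distrib, Finset.sum_ite_eq,
    Finset.mem_univ, if_true]
  have : ∑ j, ν i * ν j * ν j = ν i * ∑ j, ν j ^ 2 := by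
    rw [Finset.mul_sum]
    exact Finset.sum_congr rfl fun j _ => by ring
  rw [this, hn]
  ring

theorem Ric_nu {n : ℕ} {ν : Ix n → ℝ} {T : T4 (n + 1)} (hT : Hor ν T) (i : Ix n) :
    ∑ j, Ric T i j * ν j = 0 := by
  unfold Ric
  simp_rw [Finset.sum_mul]
  rw [Finset.sum_comm]
  refine Finset.sum_eq_zero fun c _ => ?_
  have h := hT.2 i c c
  have h2 : ∑ j, T i c j c * ν j = -∑ j, T i c c j * ν j := by
    rw [← Finset.sum_neg_distrib]
    exact Finset.sum_congr rfl fun j _ => by rw [hT.1.a34 i c j c]; ring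
  rw [h2, h, neg_zero]

theorem pull2_lin {n : ℕ} (ι : Ix n → Fin n → ℝ) (A B : M2 (n + 1)) (c : ℝ) :
    pull2 ι (A - c • B) = pull2 ι A - c • pull2 ι B := by
  funext a b
  show ∑ i, ∑ j, (A i j - c * B i j) * ι i a * ι j b =
    (∑ i, ∑ j, A i j * ι i a * ι j b) - c * ∑ i, ∑ j, B i j * ι i a * ι j b
  simp_rw [Finset.mul_sum, ← Finset.sum_sub_distrib]
  exact Finset.sum_congr rfl fun i _ => Finset.sum_congr rfl fun j _ => by ring

theorem pull_Phi (hRP2 : Goal_RP2) (hRP3 : Goal_RP3) (hLN : Goal_LN) (hCL : Goal_CL) {n : ℕ}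
    (hn : 4 ≤ n) (a b : ℝ) {ν : Ix n → ℝ} {ι : Ix n → Fin n → ℝ} (hι : Iso ν ι) {T : T4 (n + 1)}
    (hT : Hor ν T) (β : ℝ) :
    pull ι (Phi a b ν T β) = elli a b (pull ι T + β • Id4 n) ∧ Hor ν (Phi a b ν T β) := by
  obtain ⟨_, _, hRic, _, hlam, _⟩ := hRP2 n ν ι T hι hT
  obtain ⟨h1, h2, h3, h4, h5, h6, h7, h8, _⟩ := hRP3 n ν ι hι
  obtain ⟨_, _, l1, l2, l3, l4, _, _, l5, l6, _⟩ := hLN n
  obtain ⟨_, _, _, _, _, _, c7, _⟩ := hCL (n + 1)
  set lm : ℝ := (∑ a, Ric T a a) / n with hlm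
  have hA : (Ric T - lm • Pm ν).IsSymm := (c7 T hT.1).1.sub ((Pm_symm ν).smul lm)
  have hAn : ∀ i, ∑ j, (Ric T - lm • Pm ν) i j * ν j = 0 := by
    intro i
    have e : ∑ j, (Ric T - lm • Pm ν) i j * ν j =
        (∑ j, Ric T i j * ν j) - lm * ∑ j, Pm ν i j * ν j := by
      rw [Finset.mul_sum, ← Finset.sum_sub_distrib]
      refine Finset.sum_congr rfl fun j _ => ?_
      show (Ric T i j - lm * Pm ν i j) * ν j = _
      ring
    rw [e, Ric_nu hT, Pm_nu hι.nn]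
    ring
  obtain ⟨g1, g2, _⟩ := h4 _ hA hAn
  constructor
  · unfold Phi
    rw [← hlm, h5, h5, h6, h6, h1, g1, pull2_lin, ← hRic, h3]
    unfold elli Ric0
    rw [l1, l2, l3, l4, l5, l6 (by omega), hlam]
    have e1 : Ric (pull ι T) + β • ((n : ℝ) - 1) • (1 : M2 n) -
        (lm + β * ((n : ℝ) - 1)) • (1 : M2 n) = Ric (pull ι T) - lm • (1 : M2 n) := by
      module
    rw [e1]
    module
  · unfold Phi
    rw [← hlm]
    exact h7 _ _ (h7 _ _ hT (h8 _ _ h2)) (h8 _ _ g2)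

section evals
variable {n : ℕ} {T : ℝ} (F : FB n T) (z : F.Z) (t : TI T)

theorem ev_Ric (a c : Ix n) : F.ev z t (F.Ric a c) = Ric (F.rv z t) a c := by
  unfold FB.Ric Ric FB.rv
  rw [map_sum]

theorem ev_dl (a b : Ix n) : F.ev z t (F.dl a b) = if a = b then 1 else 0 := by
  unfold FB.dl
  split_ifs
  · exact map_one _
  · exact map_zero _

theorem ev_P (a b : Ix n) : F.ev z t (F.P a b) = Pm (F.nv z t) a b := by
  unfold FB.P Pm FB.nv
  rw [map_sub, map_mul, ev_dl]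

theorem ev_lam : F.ev z t F.lam = (∑ a, Ric (F.rv z t) a a) / n := by
  unfold FB.lam
  rw [map_smul, map_sum, smul_eq_mul]
  simp_rw [ev_Ric]
  ring

theorem ev_I (a b c d : Ix n) : F.ev z t (F.I a b c d) = wdg (Pm (F.nv z t)) (Pm (F.nv z t)) a b c d := by
  unfold FB.I wdg
  rw [map_sub, map_mul, map_mul, ev_P, ev_P, ev_P, ev_P]
  ring

end evals

end EVKaux

open EVKaux in
theorem goal_EVK (hRP2 : Goal_RP2) (hRP3 : Goal_RP3) (hRIC : Goal_RIC) (hPRD : Goal_PRD)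
    (hEVM : Goal_EVM) (_hEVS : Goal_EVS) (hSH : Goal_SH) (hDF : Goal_DF) (hLI : Goal_LI)
    (hLN : Goal_LN) (hCL : Goal_CL) (_hQB : Goal_QB) : Goal_EVK := by
  intro n hn a b B ha hb hB T F hF hRF bet hbH hbD z t ι hι
  obtain ⟨_, _, _, _, _, hHor, hQR⟩ := hRIC n T F hF
  obtain ⟨hp1, hp2⟩ := hPRD n T F
  obtain ⟨_, _, _, _, hPf, hIf, _⟩ := hp2 hF.toBase
  have hadd : ∀ f g : F.B, F.Hop (f + g) = F.Hop f + F.Hop g := fun f g => (hp1 f g).2.1
  have hsub : ∀ f g : F.B, F.Hop (f - g) = F.Hop f - F.Hop g := fun f g => (hp1 f g).2.2.1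
  have hsm : ∀ (c : ℝ) (f : F.B), F.Hop (c • f) = c • F.Hop f := fun c f =>
    ((hp1 f f).2.2.2.1 c).1
  have hsum : ∀ f : Ix n → F.B, F.Hop (∑ b, f b) = ∑ b, F.Hop (f b) := by
    intro f
    exact map_sum (AddMonoidHom.mk' F.Hop hadd) f Finset.univ
  have hHR : ∀ a b c d, F.Hop (F.R a b c d) = (2 : ℝ) • F.QR a b c d := hEVM n T F hF hRF
  have hHRic : ∀ a c, F.ev z t (F.Hop (F.Ric a c)) = Ric ((2 : ℝ) • Q (F.rv z t)) a c := by
    intro a c
    unfold FB.Ric Ric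
    rw [hsum, map_sum]
    refine Finset.sum_congr rfl fun b _ => ?_
    rw [hHR, map_smul, hQR]
    rfl
  have hHlam : F.ev z t (F.Hop F.lam) = (∑ a, Ric ((2 : ℝ) • Q (F.rv z t)) a a) / n := by
    unfold FB.lam
    rw [hsm, hsum, map_smul, map_sum, smul_eq_mul]
    simp_rw [hHRic]
    ring
  have hHbet : F.ev z t (F.Hop bet) = -(1 / B) * F.ev z t bet ^ 2 := by
    unfold FB.Hop FB.Lap
    simp_rw [hbH]
    simp only [map_zero, Finset.sum_const_zero, sub_zero]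
    rw [hbD, map_smul, map_pow, smul_eq_mul]
  have hHRic0 : ∀ a c, F.Hop (F.Ric0 a c) = F.Hop (F.Ric a c) - F.Hop F.lam * F.P a c := by
    intro a c
    unfold FB.Ric0
    rw [hsub, hPf]
  have hW0 : ∀ i j k l, F.Hop (F.W0 i j k l) = (1 / 2 : ℝ) •
      (F.Hop (F.Ric0 i k) * F.P j l - F.Hop (F.Ric0 i l) * F.P j k +
        F.P i k * F.Hop (F.Ric0 j l) - F.P i l * F.Hop (F.Ric0 j k)) := by
    intro i j k l
    unfold FB.W0
    rw [hsm, hsub, hadd, hsub, hPf, hPf, mul_comm (F.P i k), mul_comm (F.P i l), hPf, hPf,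
      mul_comm _ (F.P i k), mul_comm _ (F.P i l)]
  have e1 : (fun i j k l => F.ev z t (F.Sb a b bet i j k l)) =
      Phi a b (F.nv z t) (F.rv z t) (F.ev z t bet) := by
    funext i j k l
    unfold FB.Sb FB.W0 FB.Ric0
    simp only [map_sub, map_add, map_mul, map_smul, smul_eq_mul, ev_I, ev_P, ev_Ric, ev_lam]
    show _ = F.rv z t i j k l + _ * wdg (Pm (F.nv z t)) (Pm (F.nv z t)) i j k l +
      (-(2 * b / (1 + ((n : ℝ) - 2) * b))) *
        wdg (Ric (F.rv z t) - ((∑ a, Ric (F.rv z t) a a) / n) • Pm (F.nv z t)) (Pm (F.nv z t)) i j k l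
    have e2 : F.ev z t (F.R i j k l) = F.rv z t i j k l := rfl
    rw [e2]
    unfold wdg
    simp only [Matrix.sub_apply, Matrix.smul_apply, smul_eq_mul]
    ring
  have e2 : (fun i j k l => F.ev z t (F.Hop (F.Sb a b bet i j k l))) =
      Phi a b (F.nv z t) ((2 : ℝ) • Q (F.rv z t)) (-(1 / B) * F.ev z t bet ^ 2) := by
    funext i j k l
    unfold FB.Sb
    rw [hsub, hsub, hadd, hsm, hsm, hIf, hIf, hadd, hsm, hHR, hW0, hHRic0, hHRic0, hHRic0, hHRic0]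
    simp only [map_sub, map_add, map_mul, map_smul, smul_eq_mul, ev_I, ev_P, hHRic, hHlam, hHbet, hQR]
    show _ = 2 * Q (F.rv z t) i j k l + _ * wdg (Pm (F.nv z t)) (Pm (F.nv z t)) i j k l +
      (-(2 * b / (1 + ((n : ℝ) - 2) * b))) *
        wdg (Ric ((2 : ℝ) • Q (F.rv z t)) -
          ((∑ a, Ric ((2 : ℝ) • Q (F.rv z t)) a a) / n) • Pm (F.nv z t)) (Pm (F.nv z t)) i j k l
    unfold wdg
    simp only [Matrix.sub_apply, Matrix.smul_apply, smul_eq_mul]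
    ring
  have hHr := hHor z t
  obtain ⟨hcur, _, _, _, _, hQp, hQH, _⟩ := hRP2 n _ ι (F.rv z t) hι hHr
  obtain ⟨_, _, _, _, _, h6, _, h8, _⟩ := hRP3 n _ ι hι
  rw [e1, e2]
  obtain ⟨p1, p2⟩ := pull_Phi hRP2 hRP3 hLN hCL hn a b hι hHr (F.ev z t bet)
  obtain ⟨q1, q2⟩ := pull_Phi hRP2 hRP3 hLN hCL hn a b hι (h8 2 _ hQH)
    (-(1 / B) * F.ev z t bet ^ 2)
  refine ⟨p1, p2, q2, fun s hs => ?_⟩
  rw [q1, h6, ← hQp]
  generalize F.ev z t bet = β at *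
  generalize pull ι (F.rv z t) = r at *
  obtain ⟨_, _, cI, cadd, csm, _, _, cell, _⟩ := hCL n
  have hR : IsCurv (r + β • Id4 n) := cadd _ _ hcur (csm _ _ cI)
  have hsc : IsCurv s := by rw [hs]; exact (cell a b _ hR).2.1
  have hls : ell a b s = r + β • Id4 n := by
    rw [hs]
    exact (hLI n (by omega) a b ha hb _).1
  obtain ⟨_, LI2, _, _, _, _, _, _, LI9, LI10⟩ := hLI n (by omega) a b ha hb s
  have LIadd : ∀ R S : T4 n, elli a b (R + S) = elli a b R + elli a b S := fun R =>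
    (hLI n (by omega) a b ha hb R).2.2.2.2.2.2.1
  have LIsm : ∀ (R : T4 n) (c : ℝ), elli a b (c • R) = c • elli a b R := fun R =>
    (hLI n (by omega) a b ha hb R).2.2.2.2.2.2.2.1
  have LIl : ∀ R : T4 n, elli a b (ell a b R) = R := fun R =>
    (hLI n (by omega) a b ha hb R).2.1
  have hsh := hSH n (r + β • Id4 n) (-β) hR
  have hr : r + β • Id4 n + (-β) • Id4 n = r := by module
  rw [hr, ← hls] at hsh
  rw [hsh, (hDF n (by omega) a b ha hb s hsc).1]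
  have e3 : (2 : ℝ) • (ell a b (Q s + Dab a b s) + (2 * -β) • wdg (Ric (ell a b s)) 1 +
      (((n : ℝ) - 1) * (-β) ^ 2) • Id4 n) + (-(1 / B) * β ^ 2) • Id4 n =
      (2 : ℝ) • ell a b (Q s + Dab a b s) + (-(4 * β)) • wdg (Ric (ell a b s)) 1 +
      ((2 * ((n : ℝ) - 1) - 1 / B) * β ^ 2) • Id4 n := by
    module
  rw [e3, LIadd, LIadd, LIsm, LIsm, LIsm, LIl, LI9, LI10]
  have e4 : ((2 * ((n : ℝ) - 1) - 1 / B) * β ^ 2) • (1 / (1 + 2 * ((n : ℝ) - 1) * a)) • Id4 n =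
      ((2 * ((n : ℝ) - 1) - 1 / B) * β ^ 2 / (1 + 2 * ((n : ℝ) - 1) * a)) • Id4 n := by
    rw [smul_smul]
    congr 1
    ring
  rw [e4]
  module

end Pool.Agent.Helper47.RFn
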