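import Pool.Agent.Helper47.RFn.GoalsC

/-! # Project RFn, packet INSB -/

namespace Pool.Agent.Helper47.RFn

open Finset

namespace INSBaux

section quad
variable {B : Type} [CommRing B] {ι : Type} [Fintype ι] [DecidableEq ι]

theorem q1 (G G' w : ι → ι → B) :
    ∑ g, ∑ h, ∑ p, ∑ q, G g h * G' p q * ((if h = p then 1 else 0) * w g q) =
      ∑ g, ∑ h, (∑ e, G g e * G' e h) * w g h := by
  refine Finset.sum_congr rfl fun g _ => ?_
  simp_rw [Finset.sum_mul]
  rw [Finset.sum_comm]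
  rw [Finset.sum_comm (s := Finset.univ) (t := Finset.univ)]
  have h1 : ∀ h, ∑ p, ∑ q, G g h * G' p q * ((if h = p then 1 else 0) * w g q) =
      ∑ q, G g h * G' h q * w g q := by
    intro h
    rw [Finset.sum_comm]
    refine Finset.sum_congr rfl fun q _ => ?_
    simp [mul_assoc]
  simp_rw [h1]
  rw [Finset.sum_comm]

theorem quad (G G' w : ι → ι → B) (hG : ∀ g h, G g h = -G h g) (hG' : ∀ g h, G' g h = -G' h g)
    (d : ι → ι → B) (hd : ∀ a b, d a b = if a = b then 1 else 0) :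
    ∑ g, ∑ h, ∑ p, ∑ q, G g h * G' p q *
      (-(d h p * w g q - d g p * w h q - d h q * w g p + d g q * w h p)) =
      -4 * ∑ g, ∑ h, (∑ e, G g e * G' e h) * w g h := by
  have e : ∀ g h p q, G g h * G' p q *
      (-(d h p * w g q - d g p * w h q - d h q * w g p + d g q * w h p)) =
      -(G g h * G' p q * ((if h = p then 1 else 0) * w g q))
      - (G h g * G' p q * ((if g = p then 1 else 0) * w h q))
      - (G g h * G' q p * ((if h = q then 1 else 0) * w g p))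
      - (G h g * G' q p * ((if g = q then 1 else 0) * w h p)) := by
    intro g h p q
    rw [hd, hd, hd, hd, hG h g, hG' q p]
    ring
  simp_rw [e, Finset.sum_sub_distrib, Finset.sum_neg_distrib]
  have t1 := q1 G G' w
  have t2 : ∑ g, ∑ h, ∑ p, ∑ q, G h g * G' p q * ((if g = p then 1 else 0) * w h q) =
      ∑ g, ∑ h, (∑ e, G g e * G' e h) * w g h := by
    rw [← t1, Finset.sum_comm]
  have t3 : ∑ g, ∑ h, ∑ p, ∑ q, G g h * G' q p * ((if h = q then 1 else 0) * w g p) =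
      ∑ g, ∑ h, (∑ e, G g e * G' e h) * w g h := by
    rw [← t1]
    refine Finset.sum_congr rfl fun g _ => Finset.sum_congr rfl fun h _ => ?_
    rw [Finset.sum_comm]
  have t4 : ∑ g, ∑ h, ∑ p, ∑ q, G h g * G' q p * ((if g = q then 1 else 0) * w h p) =
      ∑ g, ∑ h, (∑ e, G g e * G' e h) * w g h := by
    rw [← t3, Finset.sum_comm]
  rw [t1, t2, t3, t4]
  ring

end quad

section kill
variable {B : Type} [CommRing B] [Algebra ℝ B] {n : ℕ} (e : Ix n → Derivation ℝ B B) (n0 : Ix n → B)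
  (A θ : Ix n → Ix n → B) (D : Derivation ℝ B B)

theorem dsum {ι : Type} (s : Finset ι) (D : ι → Derivation ℝ B B) (g : B) :
    (∑ i ∈ s, D i) g = ∑ i ∈ s, D i g := by
  classical
  induction s using Finset.induction_on with
  | empty => simp
  | insert a s ha ih => rw [Finset.sum_insert ha, Finset.sum_insert ha, Derivation.add_apply, ih]

variable (hDe : ∀ i f, e i (D f) = D (e i f)) (hA : ∀ a i, D (A a i) = 0)
  (hθ : ∀ i a, D (θ i a) = 0) (hn : ∀ i, D (n0 i) = 0)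

include hDe hA in
theorem D_Fd (a : Ix n) (x : B) : D (FR.Fd e A a x) = FR.Fd e A a (D x) := by
  unfold FR.Fd
  rw [map_sum]
  refine Finset.sum_congr rfl fun i _ => ?_
  rw [Derivation.leibniz, hA, hDe]
  simp

include hDe hA in
theorem kFd {x : B} (hx : D x = 0) (a : Ix n) : D (FR.Fd e A a x) = 0 := by
  rw [D_Fd e A D hDe hA, hx]
  unfold FR.Fd
  simp

include hA hn in
theorem knf (a : Ix n) : D (FR.nf n0 A a) = 0 := by
  unfold FR.nf
  rw [map_sum]
  refine Finset.sum_eq_zero fun i _ => ?_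
  rw [Derivation.leibniz, hA, hn]
  simp

theorem kif (p : Prop) [Decidable p] : D (if p then 1 else 0) = 0 := by
  split_ifs <;> simp

include hDe hA hθ hn in
theorem kC (a b c : Ix n) : D (FR.C e n0 A θ a b c) = 0 := by
  unfold FR.C
  rw [map_add, map_sum, map_sub, Derivation.leibniz, Derivation.leibniz, kif, kif,
    knf n0 A D hA hn, knf n0 A D hA hn]
  have : ∑ j, D ((FR.Fd e A a (A b j) - FR.Fd e A b (A a j)) * θ j c) = 0 := by
    refine Finset.sum_eq_zero fun j _ => ?_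
    rw [Derivation.leibniz, map_sub, kFd e A D hDe hA (hA _ _), kFd e A D hDe hA (hA _ _), hθ]
    simp
  rw [this]
  simp

include hDe hA hθ hn in
theorem kG (a b c : Ix n) : D (FR.Gam e n0 A θ a b c) = 0 := by
  unfold FR.Gam
  rw [Derivation.map_smul, map_add, map_sub, kC e n0 A θ D hDe hA hθ hn,
    kC e n0 A θ D hDe hA hθ hn, kC e n0 A θ D hDe hA hθ hn]
  simp

include hDe hA hθ hn in
theorem kR (a b c d : Ix n) : D (FR.R e n0 A θ a b c d) = 0 := by
  have hG := kG e n0 A θ D hDe hA hθ hn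
  have hC := kC e n0 A θ D hDe hA hθ hn
  unfold FR.R FR.K
  rw [map_neg, map_sub, map_add, map_sub, kFd e A D hDe hA (hG _ _ _), kFd e A D hDe hA (hG _ _ _),
    map_sum, map_sum]
  have h1 : ∑ f, D (FR.Gam e n0 A θ b c f * FR.Gam e n0 A θ a f d -
      FR.Gam e n0 A θ a c f * FR.Gam e n0 A θ b f d) = 0 := by
    refine Finset.sum_eq_zero fun f _ => ?_
    rw [map_sub, Derivation.leibniz, Derivation.leibniz, hG, hG, hG, hG]
    simp
  have h2 : ∑ f, D (FR.C e n0 A θ a b f * FR.Gam e n0 A θ f c d) = 0 := by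
    refine Finset.sum_eq_zero fun f _ => ?_
    rw [Derivation.leibniz, hG, hC]
    simp
  rw [h1, h2]
  simp

theorem Fd_add (c : Ix n) (x y : B) : FR.Fd e A c (x + y) = FR.Fd e A c x + FR.Fd e A c y := by
  simp only [FR.Fd, map_add, mul_add, Finset.sum_add_distrib]

theorem Fd_mul (c : Ix n) (x y : B) :
    FR.Fd e A c (x * y) = x * FR.Fd e A c y + y * FR.Fd e A c x := by
  simp only [FR.Fd, Derivation.leibniz, smul_eq_mul, Finset.mul_sum]
  rw [← Finset.sum_add_distrib]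
  refine Finset.sum_congr rfl fun i _ => ?_
  ring

theorem Fd_smul (c : Ix n) (r : ℝ) (x : B) : FR.Fd e A c (r • x) = r • FR.Fd e A c x := by
  simp only [FR.Fd, Derivation.map_smul, Finset.smul_sum, mul_smul_comm]

theorem Fd_sum {ι : Type} (s : Finset ι) (c : Ix n) (g : ι → B) :
    FR.Fd e A c (∑ k ∈ s, g k) = ∑ k ∈ s, FR.Fd e A c (g k) := by
  simp only [FR.Fd, map_sum, Finset.mul_sum]
  rw [Finset.sum_comm]

end kill

section lifts
variable {B : Type} [CommRing B] [Algebra ℝ B] {n : ℕ} (e : Ix n → Derivation ℝ B B)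
  (A : Ix n → Ix n → B) (U : Ix n → Ix n → Derivation ℝ B B) (Γ : Ix n → Ix n → Ix n → B)

/-- vertical part of the lift -/
noncomputable def Gv (b : Ix n) (f : B) : B := (1 / 2 : ℝ) • ∑ c, ∑ d, Γ b c d * U c d f

theorem Gv_add (b : Ix n) (f g : B) : Gv U Γ b (f + g) = Gv U Γ b f + Gv U Γ b g := by
  simp only [Gv, map_add, mul_add, Finset.sum_add_distrib, smul_add]

theorem Gv_mul (b : Ix n) (x y : B) : Gv U Γ b (x * y) = x * Gv U Γ b y + y * Gv U Γ b x := by
  have h : ∑ c, ∑ d, Γ b c d * U c d (x * y) =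
      x * (∑ c, ∑ d, Γ b c d * U c d y) + y * ∑ c, ∑ d, Γ b c d * U c d x := by
    simp only [Finset.mul_sum]
    rw [← Finset.sum_add_distrib]
    refine Finset.sum_congr rfl fun c _ => ?_
    rw [← Finset.sum_add_distrib]
    refine Finset.sum_congr rfl fun d _ => ?_
    rw [Derivation.leibniz]
    simp only [smul_eq_mul]
    ring
  unfold Gv
  rw [h, smul_add, mul_smul_comm, mul_smul_comm]

theorem Gv_sum {ι : Type} (s : Finset ι) (b : Ix n) (g : ι → B) :
    Gv U Γ b (∑ k ∈ s, g k) = ∑ k ∈ s, Gv U Γ b (g k) := by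
  classical
  induction s using Finset.induction_on with
  | empty => simp [Gv]
  | insert a s ha ih => rw [Finset.sum_insert ha, Finset.sum_insert ha, Gv_add, ih]

/-- bracket of the vertical parts -/
theorem Gv_bracket (d : Ix n → Ix n → B) (hd : ∀ a b, d a b = if a = b then 1 else 0)
    (hUU : ∀ i j k l f, U i j (U k l f) - U k l (U i j f) =
      -(d j k * U i l f - d i k * U j l f - d j l * U i k f + d i l * U j k f))
    (hΓ : ∀ a b c, Γ a b c = -Γ a c b) (hUΓ : ∀ k l a b c, U k l (Γ a b c) = 0)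
    (b c : Ix n) (f : B) :
    Gv U Γ b (Gv U Γ c f) - Gv U Γ c (Gv U Γ b f) =
      -∑ g, ∑ h, (∑ e, Γ b g e * Γ c e h) * U g h f := by
  have h1 : ∀ b c, Gv U Γ b (Gv U Γ c f) =
      (1 / 4 : ℝ) • ∑ g, ∑ h, ∑ p, ∑ q, Γ b g h * Γ c p q * U g h (U p q f) := by
    intro b c
    unfold Gv
    simp only [Derivation.map_smul, map_sum, Derivation.leibniz, hUΓ,
      smul_eq_mul, mul_smul_comm, Finset.mul_sum, ← Finset.smul_sum, smul_smul]
    rw [show (1 / 2 : ℝ) * (1 / 2) = 1 / 4 by norm_num]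
    simp only [mul_assoc, mul_zero, add_zero]
  have h2 : ∑ g, ∑ h, ∑ p, ∑ q, Γ c g h * Γ b p q * U g h (U p q f) =
      ∑ g, ∑ h, ∑ p, ∑ q, Γ b g h * Γ c p q * U p q (U g h f) := by
    have e1 : ∀ g, ∑ h, ∑ p, ∑ q, Γ c g h * Γ b p q * U g h (U p q f) =
        ∑ p, ∑ q, ∑ h, Γ c g h * Γ b p q * U g h (U p q f) := by
      intro g
      rw [Finset.sum_comm]
      refine Finset.sum_congr rfl fun p _ => ?_
      rw [Finset.sum_comm]
    simp_rw [e1]
    rw [Finset.sum_comm]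
    refine Finset.sum_congr rfl fun p _ => ?_
    rw [Finset.sum_comm]
    refine Finset.sum_congr rfl fun q _ => ?_
    refine Finset.sum_congr rfl fun g _ => Finset.sum_congr rfl fun h _ => ?_
    ring
  rw [h1 b c, h1 c b, h2, ← smul_sub]
  have h3 : (∑ g, ∑ h, ∑ p, ∑ q, Γ b g h * Γ c p q * U g h (U p q f)) -
      ∑ g, ∑ h, ∑ p, ∑ q, Γ b g h * Γ c p q * U p q (U g h f) =
      ∑ g, ∑ h, ∑ p, ∑ q, Γ b g h * Γ c p q *
        (-(d h p * U g q f - d g p * U h q f - d h q * U g p f + d g q * U h p f)) := by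
    simp only [← Finset.sum_sub_distrib]
    refine Finset.sum_congr rfl fun g _ => Finset.sum_congr rfl fun h _ =>
      Finset.sum_congr rfl fun p _ => Finset.sum_congr rfl fun q _ => ?_
    rw [← mul_sub, hUU]
  rw [h3, quad (Γ b) (Γ c) (fun g h => U g h f) (hΓ b) (hΓ c) d hd]
  rw [show (-4 : B) = ((-4 : ℝ) • (1 : B)) by
    rw [Algebra.smul_def, mul_one, map_neg, map_ofNat]]
  rw [smul_mul_assoc, one_mul, smul_smul]
  norm_num

/-- the lift -/
noncomputable def Lf (b : Ix n) (f : B) : B := FR.Fd e A b f + Gv U Γ b f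

theorem Lf_mul (b : Ix n) (x y : B) :
    Lf e A U Γ b (x * y) = x * Lf e A U Γ b y + y * Lf e A U Γ b x := by
  unfold Lf
  rw [Fd_mul, Gv_mul]
  ring

theorem Lf_sum {ι : Type} (s : Finset ι) (b : Ix n) (g : ι → B) :
    Lf e A U Γ b (∑ k ∈ s, g k) = ∑ k ∈ s, Lf e A U Γ b (g k) := by
  unfold Lf
  rw [Fd_sum, Gv_sum, Finset.sum_add_distrib]

theorem XY (hU : ∀ g h f, U g h f = -U h g f) (hΓ : ∀ a b c, Γ a b c = -Γ a c b)
    (c d : Ix n) (f : B) :
    ∑ g, ∑ h, (∑ k, Γ d g k * Γ c k h) * U g h f = -∑ g, ∑ h, (∑ k, Γ c g k * Γ d k h) * U g h f := by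
  rw [Finset.sum_comm, ← Finset.sum_neg_distrib]
  refine Finset.sum_congr rfl fun g _ => ?_
  rw [← Finset.sum_neg_distrib]
  refine Finset.sum_congr rfl fun h _ => ?_
  rw [hU h g, mul_neg, neg_inj]
  congr 1
  refine Finset.sum_congr rfl fun k _ => ?_
  rw [hΓ d h k, hΓ c k g]
  ring

theorem Fd_Gv (hUe : ∀ i k l f, e i (U k l f) = U k l (e i f)) (hUA : ∀ k l a i, U k l (A a i) = 0)
    (c d : Ix n) (f : B) :
    FR.Fd e A c (Gv U Γ d f) - Gv U Γ d (FR.Fd e A c f) =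
      (1 / 2 : ℝ) • ∑ g, ∑ h, FR.Fd e A c (Γ d g h) * U g h f := by
  unfold Gv
  rw [Fd_smul, Fd_sum, ← smul_sub, ← Finset.sum_sub_distrib]
  congr 1
  refine Finset.sum_congr rfl fun g _ => ?_
  rw [Fd_sum, ← Finset.sum_sub_distrib]
  refine Finset.sum_congr rfl fun h _ => ?_
  rw [Fd_mul, D_Fd e A (U g h) (fun i f => hUe i g h f) (hUA g h)]
  ring

theorem Lf_bracket (n0 : Ix n → B) (θ : Ix n → Ix n → B)
    (hG : ∀ a b c, Γ a b c = FR.Gam e n0 A θ a b c)
    (hUe : ∀ i k l f, e i (U k l f) = U k l (e i f)) (hUA : ∀ k l a i, U k l (A a i) = 0)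
    (d : Ix n → Ix n → B) (hd : ∀ a b, d a b = if a = b then 1 else 0)
    (hUU : ∀ i j k l f, U i j (U k l f) - U k l (U i j f) =
      -(d j k * U i l f - d i k * U j l f - d j l * U i k f + d i l * U j k f))
    (hU : ∀ g h f, U g h f = -U h g f)
    (hΓ : ∀ a b c, Γ a b c = -Γ a c b) (hUΓ : ∀ k l a b c, U k l (Γ a b c) = 0)
    (hFF : ∀ a b f, FR.Fd e A a (FR.Fd e A b f) - FR.Fd e A b (FR.Fd e A a f)
      = ∑ c, FR.C e n0 A θ a b c * FR.Fd e A c f)
    (b c : Ix n) (f : B) :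
    Lf e A U Γ b (Lf e A U Γ c f) - Lf e A U Γ c (Lf e A U Γ b f) =
      (∑ k, FR.C e n0 A θ b c k * Lf e A U Γ k f) +
        (1 / 2 : ℝ) • ∑ g, ∑ h, FR.K e n0 A θ b c g h * U g h f := by
  have e1 := hFF b c f
  have e2 := Fd_Gv e A U Γ hUe hUA b c f
  have e3 := Fd_Gv e A U Γ hUe hUA c b f
  have e4 := Gv_bracket U Γ d hd hUU hΓ hUΓ b c f
  have e5 := XY U Γ hU hΓ b c f
  have lhs : Lf e A U Γ b (Lf e A U Γ c f) - Lf e A U Γ c (Lf e A U Γ b f) =
      (∑ k, FR.C e n0 A θ b c k * FR.Fd e A k f) +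
      (1 / 2 : ℝ) • (∑ g, ∑ h, FR.Fd e A b (Γ c g h) * U g h f) -
      (1 / 2 : ℝ) • (∑ g, ∑ h, FR.Fd e A c (Γ b g h) * U g h f) -
      ∑ g, ∑ h, (∑ k, Γ b g k * Γ c k h) * U g h f := by
    unfold Lf
    rw [Fd_add, Fd_add, Gv_add, Gv_add]
    linear_combination e1 + e2 - e3 + e4
  have k1 : ∑ k, FR.C e n0 A θ b c k * Lf e A U Γ k f =
      (∑ k, FR.C e n0 A θ b c k * FR.Fd e A k f) +
        (1 / 2 : ℝ) • ∑ g, ∑ h, (∑ k, FR.C e n0 A θ b c k * Γ k g h) * U g h f := by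
    unfold Lf Gv
    simp only [mul_add, Finset.sum_add_distrib, mul_smul_comm, Finset.mul_sum, Finset.sum_mul]
    congr 1
    rw [← Finset.smul_sum]
    congr 1
    rw [Finset.sum_comm]
    refine Finset.sum_congr rfl fun g _ => ?_
    rw [Finset.sum_comm]
    refine Finset.sum_congr rfl fun h _ => Finset.sum_congr rfl fun k _ => ?_
    ring
  have k2 : ∑ g, ∑ h, FR.K e n0 A θ b c g h * U g h f =
      (∑ g, ∑ h, FR.Fd e A b (Γ c g h) * U g h f) - (∑ g, ∑ h, FR.Fd e A c (Γ b g h) * U g h f) +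
      (∑ g, ∑ h, (∑ k, Γ c g k * Γ b k h) * U g h f) -
      (∑ g, ∑ h, (∑ k, Γ b g k * Γ c k h) * U g h f) -
      ∑ g, ∑ h, (∑ k, FR.C e n0 A θ b c k * Γ k g h) * U g h f := by
    simp only [← Finset.sum_sub_distrib, ← Finset.sum_add_distrib]
    refine Finset.sum_congr rfl fun g _ => Finset.sum_congr rfl fun h _ => ?_
    unfold FR.K
    simp only [← hG]
    rw [Finset.sum_sub_distrib]
    ring
  rw [lhs, k1, k2, e5]
  generalize (∑ g, ∑ h, FR.Fd e A b (Γ c g h) * U g h f) = X1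
  generalize (∑ g, ∑ h, FR.Fd e A c (Γ b g h) * U g h f) = X2
  generalize (∑ g, ∑ h, (∑ k, Γ b g k * Γ c k h) * U g h f) = X3
  generalize (∑ g, ∑ h, (∑ k, FR.C e n0 A θ b c k * Γ k g h) * U g h f) = X4
  module

theorem Lf_u (u : Ix n → Ix n → B) (hΓ : ∀ a b c, Γ a b c = -Γ a c b)
    (heu : ∀ i a b, e i (u a b) = 0) (d : Ix n → Ix n → B)
    (hd : ∀ a b, d a b = if a = b then 1 else 0)
    (hUu : ∀ c d' b e', U c d' (u b e') = d c e' * u b d' - d d' e' * u b c)
    (c b k : Ix n) : Lf e A U Γ c (u b k) = ∑ h, Γ c k h * u b h := by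
  unfold Lf Gv FR.Fd
  simp only [heu, mul_zero, Finset.sum_const_zero, zero_add, hUu, hd, mul_sub,
    Finset.sum_sub_distrib]
  have h1 : ∑ x, ∑ x1, Γ c x x1 * ((if x = k then 1 else 0) * u b x1) = ∑ h, Γ c k h * u b h := by
    rw [Finset.sum_comm]
    refine Finset.sum_congr rfl fun x _ => ?_
    simp
  have h2 : ∑ x, ∑ x1, Γ c x x1 * ((if x1 = k then 1 else 0) * u b x) = -∑ h, Γ c k h * u b h := by
    rw [← Finset.sum_neg_distrib]
    refine Finset.sum_congr rfl fun x _ => ?_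
    simp [hΓ c x k]
  rw [h1, h2]
  module

end lifts

end INSBaux

open INSBaux in
theorem goal_INSB (hE0 : Goal_E0) (hFRA : Goal_FRA) : Goal_INSB := by
  intro n T P hP A θ S0 hF
  obtain ⟨_, _, _, heU, heV, _, heu, _, hFH⟩ := hE0 n T P hP
  have hFH := hFH A θ S0 hF
  obtain ⟨fFF, fCa, fGa, fCG, _⟩ := hFRA n P.B P.e P.n0 A θ hFH
  have hkU : ∀ k l, (∀ a b c, P.U k l (FR.C P.e P.n0 A θ a b c) = 0) ∧
      (∀ a b c, P.U k l (FR.Gam P.e P.n0 A θ a b c) = 0) ∧
      (∀ a b c d, P.U k l (FR.R P.e P.n0 A θ a b c d) = 0) ∧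
      (∀ a, P.U k l (FR.nf P.n0 A a) = 0) := by
    intro k l
    have h1 : ∀ i f, P.e i (P.U k l f) = P.U k l (P.e i f) := fun i f => heU i k l f
    have h2 : ∀ a i, P.U k l (A a i) = 0 := fun a i => (hF.XA a i).1 k l
    have h3 : ∀ i a, P.U k l (θ i a) = 0 := fun i a => (hF.Xt i a).1 k l
    have h4 : ∀ i, P.U k l (P.n0 i) = 0 := fun i => hP.Un k l i
    exact ⟨kC P.e P.n0 A θ _ h1 h2 h3 h4, kG P.e P.n0 A θ _ h1 h2 h3 h4,
      kR P.e P.n0 A θ _ h1 h2 h3 h4, knf P.n0 A _ h2 h4⟩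
  have hkV : ∀ k l, (∀ a b c, P.V k l (FR.C P.e P.n0 A θ a b c) = 0) ∧
      (∀ a b c, P.V k l (FR.Gam P.e P.n0 A θ a b c) = 0) ∧
      (∀ a b c d, P.V k l (FR.R P.e P.n0 A θ a b c d) = 0) ∧
      (∀ a, P.V k l (FR.nf P.n0 A a) = 0) := by
    intro k l
    have h1 : ∀ i f, P.e i (P.V k l f) = P.V k l (P.e i f) := fun i f => heV i k l f
    have h2 : ∀ a i, P.V k l (A a i) = 0 := fun a i => (hF.XA a i).2 k l
    have h3 : ∀ i a, P.V k l (θ i a) = 0 := fun i a => (hF.Xt i a).2 k l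
    have h4 : ∀ i, P.V k l (P.n0 i) = 0 := fun i => hP.Vn k l i
    exact ⟨kC P.e P.n0 A θ _ h1 h2 h3 h4, kG P.e P.n0 A θ _ h1 h2 h3 h4,
      kR P.e P.n0 A θ _ h1 h2 h3 h4, knf P.n0 A _ h2 h4⟩
  refine ⟨?_, fun a b c => ⟨fun k l => (hkU k l).1 a b c, fun k l => (hkV k l).1 a b c⟩,
    fun a b c => ⟨fun k l => (hkU k l).2.1 a b c, fun k l => (hkV k l).2.1 a b c⟩,
    fun a b c d => ⟨fun k l => (hkU k l).2.2.1 a b c d, fun k l => (hkV k l).2.2.1 a b c d⟩,
    fun a => ⟨fun k l => (hkU k l).2.2.2 a, fun k l => (hkV k l).2.2.2 a⟩⟩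
  intro a b f0
  obtain ⟨f, hf⟩ : ∃ f : P.B, f = f0 := ⟨f0, rfl⟩
  set Γ : Ix n → Ix n → Ix n → P.B := FR.Gam P.e P.n0 A θ with hΓdef
  set L : Ix n → P.B → P.B := Lf P.e A P.U Γ with hLdef
  have hH : ∀ a (g : P.B), (P.toFB A θ S0).H a g = ∑ c, P.u a c * L c g := by
    intro a g
    show (∑ b, P.u a b • (∑ i, A b i • P.e i
      + (1 / 2 : ℝ) • ∑ c, ∑ d, FR.Gam P.e P.n0 A θ b c d • P.U c d)) g = _
    rw [dsum]
    refine Finset.sum_congr rfl fun c _ => ?_
    rw [Derivation.smul_apply, Derivation.add_apply, dsum, Derivation.smul_apply, dsum]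
    simp only [dsum]
    rfl
  have hbr : ∀ c d, L c (L d f) - L d (L c f) = (∑ k, FR.C P.e P.n0 A θ c d k * L k f) +
      (1 / 2 : ℝ) • ∑ g, ∑ h, FR.K P.e P.n0 A θ c d g h * P.U g h f := fun c d =>
    Lf_bracket P.e A P.U Γ P.n0 θ (fun _ _ _ => rfl) heU (fun k l a i => (hF.XA a i).1 k l)
      P.dl (fun _ _ => rfl) hP.UU hP.Uanti fGa (fun k l a b c => (hkU k l).2.1 a b c) fFF c d f
  have hLu : ∀ c b d, L c (P.u b d) = ∑ h, Γ c d h * P.u b h := fun c b d =>
    Lf_u P.e A P.U Γ P.u fGa heu P.dl (fun _ _ => rfl) hP.Uu c b d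
  have hHH : ∀ a b, (∑ c, P.u a c * L c (∑ d, P.u b d * L d f)) =
      ∑ c, ∑ d, (P.u a c * P.u b d * L c (L d f) + P.u a c * L c (P.u b d) * L d f) := by
    intro a b
    refine Finset.sum_congr rfl fun c _ => ?_
    rw [hLdef, Lf_sum, Finset.mul_sum]
    refine Finset.sum_congr rfl fun d _ => ?_
    rw [Lf_mul]
    ring
  have hmain : (∑ c, P.u a c * L c (∑ d, P.u b d * L d f))
        - (∑ c, P.u b c * L c (∑ d, P.u a d * L d f)) =
      ∑ c, ∑ d, P.u a c * P.u b d * (L c (L d f) - L d (L c f)) +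
        ∑ c, ∑ d, (P.u a c * L c (P.u b d) - P.u b c * L c (P.u a d)) * L d f := by
    rw [hHH a b, hHH b a]
    have h1 : ∑ c, ∑ d, (P.u b c * P.u a d * L c (L d f) + P.u b c * L c (P.u a d) * L d f) =
        ∑ c, ∑ d, P.u a c * P.u b d * L d (L c f) + ∑ c, ∑ d, P.u b c * L c (P.u a d) * L d f := by
      simp only [Finset.sum_add_distrib]
      congr 1
      rw [Finset.sum_comm]
      refine Finset.sum_congr rfl fun c _ => Finset.sum_congr rfl fun d _ => ?_
      ring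
    rw [h1]
    simp only [Finset.sum_add_distrib, mul_sub, sub_mul, Finset.sum_sub_distrib]
    ring
  have hfirst : ∑ c, ∑ d, P.u a c * P.u b d * (∑ k, FR.C P.e P.n0 A θ c d k * L k f) +
      ∑ c, ∑ d, (P.u a c * L c (P.u b d) - P.u b c * L c (P.u a d)) * L d f = 0 := by
    have s1 : ∑ c, ∑ d, P.u a c * P.u b d * (∑ k, FR.C P.e P.n0 A θ c d k * L k f) =
        ∑ c, ∑ d, ∑ k, P.u a c * P.u b d * Γ c d k * L k f -
        ∑ c, ∑ d, ∑ k, P.u a c * P.u b d * Γ d c k * L k f := by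
      simp only [← Finset.sum_sub_distrib]
      refine Finset.sum_congr rfl fun c _ => Finset.sum_congr rfl fun d _ => ?_
      rw [Finset.mul_sum]
      refine Finset.sum_congr rfl fun k _ => ?_
      rw [fCG c d k]
      ring
    have s2 : ∑ c, ∑ d, P.u a c * L c (P.u b d) * L d f =
        -∑ c, ∑ d, ∑ k, P.u a c * P.u b d * Γ c d k * L k f := by
      rw [← Finset.sum_neg_distrib]
      refine Finset.sum_congr rfl fun c _ => ?_
      have t1 : ∑ d, P.u a c * L c (P.u b d) * L d f =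
          ∑ d, ∑ k, P.u a c * (Γ c d k * P.u b k) * L d f := by
        refine Finset.sum_congr rfl fun d _ => ?_
        rw [hLu, Finset.mul_sum, Finset.sum_mul]
      rw [t1, Finset.sum_comm, ← Finset.sum_neg_distrib]
      refine Finset.sum_congr rfl fun d _ => ?_
      rw [← Finset.sum_neg_distrib]
      refine Finset.sum_congr rfl fun k _ => ?_
      rw [fGa c k d]
      ring
    have s3 : ∑ c, ∑ d, P.u b c * L c (P.u a d) * L d f =
        -∑ c, ∑ d, ∑ k, P.u a c * P.u b d * Γ d c k * L k f := by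
      have t1 : ∀ c, ∑ d, P.u b c * L c (P.u a d) * L d f =
          -∑ d, ∑ k, P.u a d * P.u b c * Γ c d k * L k f := by
        intro c
        have t2 : ∑ d, P.u b c * L c (P.u a d) * L d f =
            ∑ d, ∑ k, P.u b c * (Γ c d k * P.u a k) * L d f := by
          refine Finset.sum_congr rfl fun d _ => ?_
          rw [hLu, Finset.mul_sum, Finset.sum_mul]
        rw [t2, Finset.sum_comm, ← Finset.sum_neg_distrib]
        refine Finset.sum_congr rfl fun d _ => ?_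
        rw [← Finset.sum_neg_distrib]
        refine Finset.sum_congr rfl fun k _ => ?_
        rw [fGa c k d]
        ring
      simp_rw [t1]
      rw [Finset.sum_neg_distrib, Finset.sum_comm]
    simp only [sub_mul, Finset.sum_sub_distrib]
    rw [s1, s2, s3]
    ring
  have hvert : ∑ c, ∑ d, P.u a c * P.u b d *
      (∑ g, ∑ h, FR.K P.e P.n0 A θ c d g h * P.U g h f) =
      -∑ p, ∑ q, (∑ i, ∑ j, ∑ k, ∑ l, P.u a i * P.u b j * P.u p k * P.u q l *
        FR.R P.e P.n0 A θ i j k l) * P.V p q f := by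
    have t1 : ∀ c d, P.u a c * P.u b d * (∑ g, ∑ h, FR.K P.e P.n0 A θ c d g h * P.U g h f) =
        ∑ p, ∑ q, -((∑ g, ∑ h, P.u a c * P.u b d * P.u p g * P.u q h *
          FR.R P.e P.n0 A θ c d g h) * P.V p q f) := by
      intro c d
      have t2 : ∑ g, ∑ h, FR.K P.e P.n0 A θ c d g h * P.U g h f =
          ∑ g, ∑ h, ∑ p, ∑ q, FR.K P.e P.n0 A θ c d g h * (P.u p g * P.u q h * P.V p q f) := by
        refine Finset.sum_congr rfl fun g _ => Finset.sum_congr rfl fun h _ => ?_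
        rw [hP.UeV]
        simp only [Finset.mul_sum]
      rw [t2]
      have t3 : ∑ g, ∑ h, ∑ p, ∑ q, FR.K P.e P.n0 A θ c d g h * (P.u p g * P.u q h * P.V p q f) =
          ∑ p, ∑ q, ∑ g, ∑ h, FR.K P.e P.n0 A θ c d g h * (P.u p g * P.u q h * P.V p q f) := by
        have e1 : ∀ g, ∑ h, ∑ p, ∑ q, FR.K P.e P.n0 A θ c d g h * (P.u p g * P.u q h * P.V p q f) =
            ∑ p, ∑ q, ∑ h, FR.K P.e P.n0 A θ c d g h * (P.u p g * P.u q h * P.V p q f) := by
          intro g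
          rw [Finset.sum_comm]
          refine Finset.sum_congr rfl fun p _ => ?_
          rw [Finset.sum_comm]
        simp_rw [e1]
        rw [Finset.sum_comm]
        refine Finset.sum_congr rfl fun p _ => ?_
        rw [Finset.sum_comm]
      rw [t3]
      simp only [Finset.mul_sum, Finset.sum_mul, ← Finset.sum_neg_distrib]
      refine Finset.sum_congr rfl fun p _ => Finset.sum_congr rfl fun q _ =>
        Finset.sum_congr rfl fun g _ => Finset.sum_congr rfl fun h _ => ?_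
      unfold FR.R
      ring
    simp_rw [t1]
    have e1 : ∀ c, (∑ d, ∑ p, ∑ q, -((∑ g, ∑ h, P.u a c * P.u b d * P.u p g * P.u q h *
          FR.R P.e P.n0 A θ c d g h) * P.V p q f)) =
        ∑ p, ∑ q, ∑ d, -((∑ g, ∑ h, P.u a c * P.u b d * P.u p g * P.u q h *
          FR.R P.e P.n0 A θ c d g h) * P.V p q f) := by
      intro c
      rw [Finset.sum_comm]
      refine Finset.sum_congr rfl fun p _ => ?_
      rw [Finset.sum_comm]
    simp_rw [e1]
    rw [Finset.sum_comm, ← Finset.sum_neg_distrib]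
    refine Finset.sum_congr rfl fun p _ => ?_
    rw [Finset.sum_comm, ← Finset.sum_neg_distrib]
    refine Finset.sum_congr rfl fun q _ => ?_
    simp only [Finset.sum_mul, Finset.sum_neg_distrib]
  subst hf
  have E1 := (hH a ((P.toFB A θ S0).H b f)).trans
    (congrArg (fun g : P.B => ∑ c, P.u a c * L c g) (hH b f))
  have E2 := (hH b ((P.toFB A θ S0).H a f)).trans
    (congrArg (fun g : P.B => ∑ c, P.u b c * L c g) (hH a f))
  have e3 : ∑ c, ∑ d, P.u a c * P.u b d * (L c (L d f) - L d (L c f)) =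
      (∑ c, ∑ d, P.u a c * P.u b d * (∑ k, FR.C P.e P.n0 A θ c d k * L k f)) +
      (1 / 2 : ℝ) • ∑ c, ∑ d, P.u a c * P.u b d *
        (∑ g, ∑ h, FR.K P.e P.n0 A θ c d g h * P.U g h f) := by
    simp only [hbr, mul_add, Finset.sum_add_distrib, mul_smul_comm, ← Finset.smul_sum]
  have key : (∑ c, P.u a c * L c (∑ d, P.u b d * L d f))
        - (∑ c, P.u b c * L c (∑ d, P.u a d * L d f)) =
      (-(1 / 2) : ℝ) • ∑ p, ∑ q, (∑ i, ∑ j, ∑ k, ∑ l, P.u a i * P.u b j * P.u p k * P.u q l *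
        FR.R P.e P.n0 A θ i j k l) * P.V p q f := by
    rw [hmain, e3, hvert, neg_smul, ← smul_neg]
    linear_combination hfirst
  exact (congrArg₂ (fun x y : P.B => x - y) E1 E2).trans key

end Pool.Agent.Helper47.RFn
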