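import Pool.Agent.Helper47.RFn.Alg

/-! # Packet RFn-WI (MP_c98eff_gt): the reaction term on the zeros of `qf` -/

namespace Pool.Agent.Helper47.RFn

open Finset

section sums

variable {n : ℕ}

theorem wi_s4 (g : Fin n → Fin n → Fin n → Fin n → Fin n → ℂ) :
    ∑ a, ∑ b, ∑ c, ∑ d, ∑ e, g a b c d e = ∑ e, ∑ a, ∑ b, ∑ c, ∑ d, g a b c d e := by
  have h1 : ∀ a b c, ∑ d, ∑ e, g a b c d e = ∑ e, ∑ d, g a b c d e := fun _ _ _ => sum_comm
  have h2 : ∀ a b, ∑ c, ∑ e, ∑ d, g a b c d e = ∑ e, ∑ c, ∑ d, g a b c d e :=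
    fun _ _ => sum_comm
  have h3 : ∀ a, ∑ b, ∑ e, ∑ c, ∑ d, g a b c d e = ∑ e, ∑ b, ∑ c, ∑ d, g a b c d e :=
    fun _ => sum_comm
  simp only [h1, h2, h3]
  exact sum_comm

theorem wi_s6 (g : Fin n → Fin n → Fin n → Fin n → Fin n → Fin n → ℂ) :
    ∑ a, ∑ b, ∑ c, ∑ d, ∑ e, ∑ f, g a b c d e f =
      ∑ e, ∑ f, ∑ a, ∑ b, ∑ c, ∑ d, g a b c d e f := by
  rw [wi_s4 (fun a b c d e => ∑ f, g a b c d e f)]
  refine sum_congr rfl fun e _ => ?_
  exact wi_s4 (fun a b c d f => g a b c d e f)

theorem wi_p1 (X Y : Fin n → Fin n → ℂ) :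
    ∑ a, ∑ b, ∑ c, ∑ d, X a b * Y c d = (∑ a, ∑ b, X a b) * (∑ c, ∑ d, Y c d) := by
  rw [sum_mul]
  refine sum_congr rfl fun a _ => ?_
  rw [sum_mul]
  refine sum_congr rfl fun b _ => ?_
  rw [mul_sum]
  refine sum_congr rfl fun c _ => ?_
  rw [mul_sum]

theorem wi_p2 (X Y : Fin n → Fin n → ℂ) :
    ∑ a, ∑ b, ∑ c, ∑ d, X a c * Y b d = (∑ a, ∑ c, X a c) * (∑ b, ∑ d, Y b d) := by
  rw [← wi_p1]
  refine sum_congr rfl fun a _ => ?_
  exact sum_comm

theorem wi_p3 (X Y : Fin n → Fin n → ℂ) :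
    ∑ a, ∑ b, ∑ c, ∑ d, X a d * Y b c = (∑ a, ∑ d, X a d) * (∑ b, ∑ c, Y b c) := by
  rw [← wi_p1]
  refine sum_congr rfl fun a _ => ?_
  have h : ∀ b : Fin n, ∑ c, ∑ d, X a d * Y b c = ∑ d, ∑ c, X a d * Y b c := fun _ => sum_comm
  simp only [h]
  exact sum_comm

end sums

theorem goal_WI (hSQ : Goal_SQ) (hSV : Goal_SV) (hBT : Goal_BT) : Goal_WI := by
  intro n R hR z w h0
  have hC := hR.1
  set Sm : Matrix (Fin n) (Fin n) ℂ := fun e f => ∑ b, ∑ d, (R e b f d : ℂ) * (w b * star (w d))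
    with hSm
  set Pm : Matrix (Fin n) (Fin n) ℂ := fun e f => ∑ a, ∑ c, (R a e c f : ℂ) * (z a * star (z c))
    with hPm
  set Tm : Matrix (Fin n) (Fin n) ℂ := fun e f => ∑ b, ∑ c, (R e b c f : ℂ) * (w b * star (z c))
    with hTm
  have hstar : ∀ r : ℝ, star (r : ℂ) = (r : ℂ) := fun r => Complex.conj_ofReal r
  have hS : ∀ e f, Sm f e = star (Sm e f) := by
    intro e f
    simp only [hSm, star_sum, star_mul', star_star, hstar]
    rw [sum_comm]
    refine sum_congr rfl fun d _ => sum_congr rfl fun b _ => ?_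
    rw [hC.pair f b e d]
    ring
  have hP : ∀ e f, Pm f e = star (Pm e f) := by
    intro e f
    simp only [hPm, star_sum, star_mul', star_star, hstar]
    rw [sum_comm]
    refine sum_congr rfl fun c _ => sum_congr rfl fun a _ => ?_
    rw [hC.pair a f c e]
    ring
  have hpos : ∀ ξ η : Fin n → ℂ, 0 ≤ (∑ e, ∑ f, (Sm e f * ξ e * star (ξ f)
      + Pm e f * η e * star (η f) + 2 * (Tm e f * ξ e * star (η f)))).re := by
    intro ξ η
    have h1 := hSV n R hR z w h0 ξ η
    have h2 : ∑ a, ∑ b, ∑ c, ∑ d, (R a b c d : ℂ) * (ξ a * w b * star (ξ c) * star (w d)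
      + z a * η b * star (z c) * star (η d) + 2 * (ξ a * w b * star (z c) * star (η d))) =
      ∑ e, ∑ f, (Sm e f * ξ e * star (ξ f)
      + Pm e f * η e * star (η f) + 2 * (Tm e f * ξ e * star (η f))) := by
      have k1 : ∑ e, ∑ f, Sm e f * ξ e * star (ξ f) =
          ∑ a, ∑ b, ∑ c, ∑ d, (R a b c d : ℂ) * (ξ a * w b * star (ξ c) * star (w d)) := by
        refine sum_congr rfl fun a _ => ?_
        rw [sum_comm]
        refine sum_congr rfl fun c _ => ?_
        simp only [hSm, sum_mul]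
        refine sum_congr rfl fun b _ => sum_congr rfl fun d _ => ?_
        ring
      have k2 : ∑ e, ∑ f, Pm e f * η e * star (η f) =
          ∑ a, ∑ b, ∑ c, ∑ d, (R a b c d : ℂ) * (z a * η b * star (z c) * star (η d)) := by
        rw [sum_comm (s := univ) (t := univ) (f := fun a b => ∑ c, ∑ d,
          (R a b c d : ℂ) * (z a * η b * star (z c) * star (η d)))]
        refine sum_congr rfl fun b _ => ?_
        have h3 : ∀ a : Fin n, ∑ c, ∑ d,
          (R a b c d : ℂ) * (z a * η b * star (z c) * star (η d)) = ∑ d, ∑ c,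
          (R a b c d : ℂ) * (z a * η b * star (z c) * star (η d)) := fun _ => sum_comm
        simp only [h3]
        rw [sum_comm]
        refine sum_congr rfl fun d _ => ?_
        simp only [hPm, sum_mul]
        refine sum_congr rfl fun a _ => sum_congr rfl fun c _ => ?_
        ring
      have k3 : ∑ e, ∑ f, Tm e f * ξ e * star (η f) =
          ∑ a, ∑ b, ∑ c, ∑ d, (R a b c d : ℂ) * (ξ a * w b * star (z c) * star (η d)) := by
        refine sum_congr rfl fun a _ => ?_
        have h3 : ∀ b : Fin n, ∑ c, ∑ d,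
          (R a b c d : ℂ) * (ξ a * w b * star (z c) * star (η d)) = ∑ d, ∑ c,
          (R a b c d : ℂ) * (ξ a * w b * star (z c) * star (η d)) := fun _ => sum_comm
        simp only [h3]
        rw [sum_comm (s := univ) (t := univ) (f := fun b d => ∑ c,
          (R a b c d : ℂ) * (ξ a * w b * star (z c) * star (η d)))]
        refine sum_congr rfl fun d _ => ?_
        simp only [hTm, sum_mul]
        refine sum_congr rfl fun b _ => sum_congr rfl fun c _ => ?_
        ring
      simp only [mul_add, sum_add_distrib, ← mul_sum, ← k1, ← k2]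
      congr 1
      rw [k3]
      simp only [mul_sum]
      refine sum_congr rfl fun a _ => sum_congr rfl fun b _ => sum_congr rfl fun c _ =>
        sum_congr rfl fun d _ => ?_
      ring
    rw [h2] at h1
    exact h1
  have hbt := hBT n Sm Tm Pm hS hP hpos
  -- the first part
  set U : Fin n → Fin n → ℂ := fun e f => ∑ a, ∑ b, (R a b e f : ℂ) * (z a * w b) with hU
  have hU0 : 0 ≤ (∑ e, ∑ f, U e f * star (U e f)).re := by
    rw [Complex.re_sum]
    refine sum_nonneg fun e _ => ?_
    rw [Complex.re_sum]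
    refine sum_nonneg fun f _ => ?_
    have : U e f * star (U e f) = ((Complex.normSq (U e f) : ℝ) : ℂ) := Complex.mul_conj _
    rw [this, Complex.ofReal_re]
    exact Complex.normSq_nonneg _
  have hG1 : ∑ a, ∑ b, ∑ c, ∑ d, ∑ e, ∑ f, ((R a b e f : ℂ) * (z a * w b)) *
      ((R c d e f : ℂ) * (star (z c) * star (w d))) = ∑ e, ∑ f, U e f * star (U e f) := by
    rw [wi_s6]
    refine sum_congr rfl fun e _ => sum_congr rfl fun f _ => ?_
    rw [wi_p1 (fun a b => (R a b e f : ℂ) * (z a * w b))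
      (fun c d => (R c d e f : ℂ) * (star (z c) * star (w d)))]
    congr 1
    simp only [hU, star_sum, star_mul', hstar]
  have hG2 : ∑ a, ∑ b, ∑ c, ∑ d, ∑ e, ∑ f, ((R a e c f : ℂ) * (z a * star (z c))) *
      ((R b e d f : ℂ) * (w b * star (w d))) = ∑ e, ∑ f, Pm e f * Sm e f := by
    rw [wi_s6]
    refine sum_congr rfl fun e _ => sum_congr rfl fun f _ => ?_
    rw [wi_p2 (fun a c => (R a e c f : ℂ) * (z a * star (z c)))
      (fun b d => (R b e d f : ℂ) * (w b * star (w d)))]
    congr 1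
    simp only [hSm]
    refine sum_congr rfl fun b _ => sum_congr rfl fun d _ => ?_
    have : R b e d f = R e b f d := by rw [hC.a12 b e d f, hC.a34 e b d f]; ring
    rw [this]
  have hG3 : ∑ a, ∑ b, ∑ c, ∑ d, ∑ e, ∑ f, ((R a e d f : ℂ) * (z a * star (w d))) *
      ((R b e c f : ℂ) * (w b * star (z c))) = ∑ e, ∑ f, Tm e f * star (Tm f e) := by
    rw [wi_s6]
    refine sum_congr rfl fun e _ => sum_congr rfl fun f _ => ?_
    rw [wi_p3 (fun a d => (R a e d f : ℂ) * (z a * star (w d)))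
      (fun b c => (R b e c f : ℂ) * (w b * star (z c)))]
    have k1 : ∑ b, ∑ c, (R b e c f : ℂ) * (w b * star (z c)) = - Tm e f := by
      simp only [hTm, ← sum_neg_distrib]
      refine sum_congr rfl fun b _ => sum_congr rfl fun c _ => ?_
      rw [hC.a12 b e c f]
      push_cast
      ring
    have k2 : ∑ a, ∑ d, (R a e d f : ℂ) * (z a * star (w d)) = - star (Tm f e) := by
      simp only [hTm, star_sum, star_mul', star_star, hstar, ← sum_neg_distrib]
      rw [sum_comm]
      refine sum_congr rfl fun d _ => sum_congr rfl fun a _ => ?_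
      rw [hC.pair f d a e, hC.a34 a e f d]
      push_cast
      ring
    rw [k1, k2]
    ring
  have hq : qf (Q R) z w = (1 / 2) * (∑ e, ∑ f, U e f * star (U e f)).re +
      (∑ e, ∑ f, (Pm e f * Sm e f - Tm e f * star (Tm f e))).re := by
    have h1 : ∑ a, ∑ b, ∑ c, ∑ d, (Q R a b c d : ℂ) * z a * w b * star (z c) * star (w d) =
        ((1 / 2 : ℝ) : ℂ) * (∑ e, ∑ f, U e f * star (U e f)) +
      (∑ e, ∑ f, (Pm e f * Sm e f - Tm e f * star (Tm f e))) := by
      simp only [sum_sub_distrib]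
      rw [← hG1, ← hG2, ← hG3]
      simp only [mul_sum, ← sum_add_distrib, ← sum_sub_distrib]
      refine sum_congr rfl fun a _ => sum_congr rfl fun b _ => sum_congr rfl fun c _ =>
        sum_congr rfl fun d _ => ?_
      have h2 : Q R a b c d = (1 / 2) * ∑ e, ∑ f, R a b e f * R c d e f +
          (∑ e, ∑ f, R a e c f * R b e d f - ∑ e, ∑ f, R a e d f * R b e c f) := by
        rw [← hSQ n R hC a b c d]
        unfold Q
        simp only [BB]
        ring
      rw [h2]
      push_cast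
      simp only [sub_mul, add_mul, sum_mul, mul_sum, sum_add_distrib, sum_sub_distrib]
      congr 1
      · refine sum_congr rfl fun e _ => sum_congr rfl fun f _ => ?_
        ring
      · congr 1
        · refine sum_congr rfl fun e _ => sum_congr rfl fun f _ => ?_
          ring
        · refine sum_congr rfl fun e _ => sum_congr rfl fun f _ => ?_
          ring
    unfold qf
    rw [h1, Complex.add_re, Complex.re_ofReal_mul]
  rw [hq]
  linarith

end Pool.Agent.Helper47.RFn
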